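import Pool.Agent.Y499.HC.ProjHT
import Pool.Agent.Y502.HC.Frame
import Pool.Agent.Y888.HC.Det
import Pool.Agent.Y331.HC.Pos
import Pool.Agent.Y64.HC.Ptw
import Pool.Agent.Y454.HC.Avge
import Pool.Agent.Y908.HC.Inv2

/-! # The isosystolic inequality for Riemannian metrics on `RP^n` in Fermi coordinates of a
hyperplane

Let `n = d + 1 ≥ 3`. The projective space `RP^n` without a point is the quotient of
`(-L, L) × S^(n-1)` by `(s, x) ↦ (-s, -x)`. For every Riemannian metric `ds² + k(s, x)² g_round`,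
where `k` is an arbitrary positive function of both variables, the systole is at most
`(n! v_n)^(1/n) / 2 · V^(1/n)`, where `V` is the volume. -/

set_option autoImplicit false

open Real Set MeasureTheory Metric
open scoped ENNReal Nat

namespace Pool.Agent.Results.MP_282f00_gt.FermiProjective

open Pool.Agent.Y499.HC Pool.Agent.Y499.HR Pool.Agent.Y499.HP

theorem result (d : ℕ) (hd : 2 ≤ d) (L : ℝ) (hL : 0 < L)
    (k : ℝ → EuclideanSpace ℝ (Fin (d + 1)) → ℝ) (hk : IsSlice d L k) :
    (2 * sysK d L k) ^ (d + 1) ≤ (((d + 1)! : ℕ) : ℝ≥0∞) *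
      (volume : Measure (EuclideanSpace ℝ (Fin (d + 1)))) (ball 0 1) * projVol d L k := by
  have hF := Pool.Agent.Y502.HC.t_FRAME
  have hP := Pool.Agent.Y64.HC.t_PTW
  have hA := Pool.Agent.Y454.HC.t_AVGE
  have hI := Pool.Agent.Y908.HC.t_INV2
  have hO := Pool.Agent.Y331.HC.t_POS
  have hD := Pool.Agent.Y888.HC.t_DET
  exact proj_iso hF hP hA hI hO hD hd hL hk

end Pool.Agent.Results.MP_282f00_gt.FermiProjective
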